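import Pool.Agent.Helper20.EP.All

/-!
# MP_75c0be_nt: the Erdős–Kac law for the integer parts of real polynomials

For every real polynomial `f` such that the coefficient of `x ^ j` is irrational for at least one
`j ≥ 1`, the number of different prime divisors of `⌊f(n)⌋` satisfies the law of Erdős and Kac.

Outline of the proof (files `Pool/Agent/Helper*/EP/`). For every `N` choose a rational
approximation `F / q` of the non-constant coefficients of `f` with `M = q (1 + T)` almost minimal,
where `T = max |a_j - b_j / q| N ^ j`. Then `M → ∞`, and `⌊f(n)⌋` is equidistributed modulo all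
`m ≤ M ^ c` (Weyl sums, WINV, EXPS, ALPHA). If `M` is not very small the theorem follows by the
method of moments. Otherwise `[1, N]` splits into cells on which `q ⌊f(n)⌋ = F(n) - s`, and one has
to show that `∑_{p ≤ y} ρ_s(p) / p = log log y + o(√(log log y))` for almost all `s` of the size of
`M` (with respect to a rather arbitrary weight), where `ρ_s(p)` is the number of roots of `F - s`
modulo `p`. The upper bound is a one-sided theorem of Mertens with an error `O(log M)`, uniform in
the polynomial (counting lattice points, OSM), together with the irreducibility of `F - s` for most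
`s` in short intervals (determinant method, DET, IRR). The lower bound is a duality: the mean square
over `s` is expressed by the resolvents of pairs `(F - s, F - s')` (HITY, HITO, GEN, PAIR, PSD,
DUALA, CLOW), to which the one-sided theorem applies.

The proof was formalised by a team: helpers 1, 2, 3, 6, 9, 10, 11, 12, 14, 20, 23, 27, 29, 31, 33,
46, 48, 50, 51, 52, 57, 59, 72, 74, 84, 85, 89, 94, 95, 97, 98.
-/

set_option autoImplicit false

open Polynomial Filter Topology

namespace Pool.Agent.Results.MP_75c0be_nt.ErdosKacIntegerParts

/-- The law of Erdős and Kac for `ω(⌊f(n)⌋)`, where `f` is a real polynomial with an irrational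
coefficient of positive degree. -/
theorem result (f : ℝ[X]) (hf : ∃ j : ℕ, 1 ≤ j ∧ Irrational (f.coeff j)) (t : ℝ) :
    Tendsto (fun N : ℕ => (((Finset.Icc 1 N).filter fun n : ℕ =>
        ((⌊f.eval (n : ℝ)⌋.natAbs.primeFactors.card : ℝ) - Real.log (Real.log N)) /
          Real.sqrt (Real.log (Real.log N)) ≤ t).card : ℝ) / N)
      atTop (𝓝 (ProbabilityTheory.cdf (ProbabilityTheory.gaussianReal 0 1) t)) := by
  rw [ProbabilityTheory.cdf_eq_real]
  exact Pool.Agent.Helper20.EP.fin_thm f hf t

end Pool.Agent.Results.MP_75c0be_nt.ErdosKacIntegerParts
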